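import Mathlib

namespace Y375.HI

universe u v

/-- `R = [R,R]`: the additive group of `R` is generated by the commutators. -/
def Perfect (R : Type u) [NonUnitalRing R] : Prop :=
  AddSubgroup.closure {x : R | ∃ a b : R, x = a * b - b * a} = ⊤

/-- the (linearised) Hall identity: `[x,y] ∘ [z,t]` commutes with everything, where
`a ∘ b = a b + b a`. -/
def Hall (R : Type u) [NonUnitalRing R] : Prop :=
  ∀ x y z t w : R,
    ((x * y - y * x) * (z * t - t * z) + (z * t - t * z) * (x * y - y * x)) * w =
      w * ((x * y - y * x) * (z * t - t * z) + (z * t - t * z) * (x * y - y * x))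

section Main

variable {R : Type u} [NonUnitalRing R]

/-- a property which is closed under addition and negation and holds for the commutators holds
for all elements -/
lemma all_of_comm (hR : Perfect R) (P : R → Prop) (h0 : P 0) (hadd : ∀ x y, P x → P y → P (x + y))
    (hneg : ∀ x, P x → P (-x)) (hc : ∀ a b : R, P (a * b - b * a)) (x : R) : P x := by
  have hx : x ∈ AddSubgroup.closure {x : R | ∃ a b : R, x = a * b - b * a} := by
    rw [hR]; exact AddSubgroup.mem_top x
  induction hx using AddSubgroup.closure_induction with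
  | mem x hx => obtain ⟨a, b, rfl⟩ := hx; exact hc a b
  | zero => exact h0
  | add x y _ _ h1 h2 => exact hadd x y h1 h2
  | neg x _ h => exact hneg x h

lemma step1 (hR : Perfect R) (h : Hall R) (a b c : R) :
    (a * b + b * a) * c = c * (a * b + b * a) := by
  have h1 : ∀ a z t c : R, (a * (z * t - t * z) + (z * t - t * z) * a) * c =
      c * (a * (z * t - t * z) + (z * t - t * z) * a) := by
    intro a z t c
    refine all_of_comm hR (fun a => (a * (z * t - t * z) + (z * t - t * z) * a) * c =
      c * (a * (z * t - t * z) + (z * t - t * z) * a)) ?_ ?_ ?_ ?_ a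
    · simp
    · intro x y hx hy
      have e1 : ((x + y) * (z * t - t * z) + (z * t - t * z) * (x + y)) =
        (x * (z * t - t * z) + (z * t - t * z) * x) +
          (y * (z * t - t * z) + (z * t - t * z) * y) := by noncomm_ring
      rw [e1, add_mul, mul_add, hx, hy]
    · intro x hx
      have e1 : ((-x) * (z * t - t * z) + (z * t - t * z) * (-x)) =
        -(x * (z * t - t * z) + (z * t - t * z) * x) := by noncomm_ring
      rw [e1, neg_mul, mul_neg, hx]
    · intro x y
      exact h x y z t c
  refine all_of_comm hR (fun b => (a * b + b * a) * c = c * (a * b + b * a)) ?_ ?_ ?_ ?_ b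
  · simp
  · intro x y hx hy
    have e1 : a * (x + y) + (x + y) * a = (a * x + x * a) + (a * y + y * a) := by noncomm_ring
    rw [e1, add_mul, mul_add, hx, hy]
  · intro x hx
    have e1 : a * (-x) + (-x) * a = -(a * x + x * a) := by noncomm_ring
    rw [e1, neg_mul, mul_neg, hx]
  · intro x y
    exact h1 a x y c

/-- `2 (a ∘ b) c = 0` -/
lemma step2 (hR : Perfect R) (h : Hall R) (a b c : R) :
    (a * b + b * a) * c + (a * b + b * a) * c = 0 := by
  have hz := step1 hR h
  refine all_of_comm hR (fun c => (a * b + b * a) * c + (a * b + b * a) * c = 0) ?_ ?_ ?_ ?_ c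
  · simp
  · intro x y hx hy
    rw [mul_add]
    calc _ = ((a * b + b * a) * x + (a * b + b * a) * x) +
          ((a * b + b * a) * y + (a * b + b * a) * y) := by abel
      _ = 0 := by rw [hx, hy, add_zero]
  · intro x hx
    rw [mul_neg, ← neg_add, hx, neg_zero]
  · intro c d
    have h1 := hz (a * b + b * a) c d
    have h2 := hz a b c
    have h3 := hz a b d
    generalize a * b + b * a = z at *
    rw [← h2] at h1
    have h4 : (z * c + z * c) * d = z * (c * d) + z * (c * d) := by noncomm_ring
    have h5 : d * (z * c + z * c) = z * (d * c) + z * (d * c) := by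
      rw [mul_add, ← mul_assoc, ← h3, mul_assoc]
    rw [h4, h5] at h1
    have h6 : z * (c * d - d * c) + z * (c * d - d * c) =
        (z * (c * d) + z * (c * d)) - (z * (d * c) + z * (d * c)) := by noncomm_ring
    rw [h6, h1, sub_self]

/-- `4 a b c d = 0` -/
lemma step3 (hR : Perfect R) (h : Hall R) (a b c d : R) : (4 : ℕ) • (a * b * c * d) = 0 := by
  have h1 := step2 hR h (a * b) c d
  have h2 := step2 hR h c a (b * d)
  have h3 : a * ((b * c + c * b) * d + (b * c + c * b) * d) = 0 := by
    rw [step2 hR h b c d, mul_zero]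
  have e : (4 : ℕ) • (a * b * c * d) =
      (((a * b) * c + c * (a * b)) * d + ((a * b) * c + c * (a * b)) * d) -
      ((c * a + a * c) * (b * d) + (c * a + a * c) * (b * d)) +
      a * ((b * c + c * b) * d + (b * c + c * b) * d) := by
    noncomm_ring
  rw [e, h1, h2, h3]
  simp

lemma step4 (hR : Perfect R) (h : Hall R) (a : R) : (4 : ℕ) • a = 0 := by
  have h3 : ∀ a b c : R, (4 : ℕ) • (a * b * c) = 0 := by
    intro a b c
    refine all_of_comm hR (fun a => (4 : ℕ) • (a * b * c) = 0) ?_ ?_ ?_ ?_ a
    · simp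
    · intro x y hx hy
      rw [add_mul, add_mul, smul_add, hx, hy, add_zero]
    · intro x hx
      rw [neg_mul, neg_mul, smul_neg, hx, neg_zero]
    · intro x y
      rw [sub_mul, sub_mul, smul_sub, step3 hR h, step3 hR h, sub_zero]
  have h2 : ∀ a b : R, (4 : ℕ) • (a * b) = 0 := by
    intro a b
    refine all_of_comm hR (fun a => (4 : ℕ) • (a * b) = 0) ?_ ?_ ?_ ?_ a
    · simp
    · intro x y hx hy
      rw [add_mul, smul_add, hx, hy, add_zero]
    · intro x hx
      rw [neg_mul, smul_neg, hx, neg_zero]
    · intro x y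
      rw [sub_mul, smul_sub, h3, h3, sub_zero]
  refine all_of_comm hR (fun a => (4 : ℕ) • a = 0) ?_ ?_ ?_ ?_ a
  · simp
  · intro x y hx hy
    rw [smul_add, hx, hy, add_zero]
  · intro x hx
    rw [smul_neg, hx, neg_zero]
  · intro x y
    rw [smul_sub, h2, h2, sub_zero]

/-- every element is twice an element -/
lemma step5 (hR : Perfect R) (h : Hall R) (a : R) : ∃ s : R, a = (2 : ℕ) • s := by
  have hz := step1 hR h
  have h1 : ∀ r c : R, ∃ s : R, r * c - c * r = (2 : ℕ) • s := by
    intro r c
    refine all_of_comm hR (fun r => ∃ s : R, r * c - c * r = (2 : ℕ) • s) ?_ ?_ ?_ ?_ r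
    · exact ⟨0, by simp⟩
    · rintro x y ⟨s, hs⟩ ⟨t, ht⟩
      refine ⟨s + t, ?_⟩
      rw [smul_add, ← hs, ← ht]
      noncomm_ring
    · rintro x ⟨s, hs⟩
      refine ⟨-s, ?_⟩
      rw [smul_neg, ← hs]
      noncomm_ring
    · intro a b
      refine ⟨-((b * a) * c - c * (b * a)), ?_⟩
      have h2 := hz a b c
      have e : (a * b - b * a) * c - c * (a * b - b * a) =
          ((a * b + b * a) * c - c * (a * b + b * a)) +
            (2 : ℕ) • (-((b * a) * c - c * (b * a))) := by noncomm_ring
      rw [e, h2, sub_self, zero_add]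
  refine all_of_comm hR (fun a => ∃ s : R, a = (2 : ℕ) • s) ?_ ?_ ?_ ?_ a
  · exact ⟨0, by simp⟩
  · rintro x y ⟨s, hs⟩ ⟨t, ht⟩
    exact ⟨s + t, by rw [smul_add, ← hs, ← ht]⟩
  · rintro x ⟨s, hs⟩
    exact ⟨-s, by rw [smul_neg, ← hs]⟩
  · intro a b
    exact h1 a b

theorem zero_of_hall (hR : Perfect R) (h : Hall R) (a : R) : a = 0 := by
  obtain ⟨s, hs⟩ := step5 hR h a
  obtain ⟨t, ht⟩ := step5 hR h s
  rw [hs, ht, smul_smul]
  exact step4 hR h t

end Main

section Matrices

variable (C : Type v) [CommRing C]

lemma hall_matrix : Hall (Matrix (Fin 2) (Fin 2) C) := by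
  intro x y z t w
  ext i j
  fin_cases i <;> fin_cases j <;>
    simp [Matrix.mul_apply, Fin.sum_univ_two, Matrix.add_apply, Matrix.sub_apply] <;> ring

end Matrices

section Functorial

lemma hall_sub {A : Type v} [NonUnitalRing A] (h : Hall A) (S : NonUnitalSubring A) : Hall S := by
  intro x y z t w
  apply Subtype.ext
  exact h x y z t w

lemma hall_image {A : Type v} {B : Type u} [NonUnitalRing A] [NonUnitalRing B] (h : Hall A)
    (f : A →ₙ+* B) (hf : Function.Surjective f) : Hall B := by
  intro x y z t w
  obtain ⟨x, rfl⟩ := hf x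
  obtain ⟨y, rfl⟩ := hf y
  obtain ⟨z, rfl⟩ := hf z
  obtain ⟨t, rfl⟩ := hf t
  obtain ⟨w, rfl⟩ := hf w
  have := congrArg f (h x y z t w)
  simpa only [map_mul, map_add, map_sub] using this

lemma perfect_image {A : Type v} {B : Type u} [NonUnitalRing A] [NonUnitalRing B] (h : Perfect A)
    (f : A →ₙ+* B) (hf : Function.Surjective f) : Perfect B := by
  rw [Perfect, eq_top_iff]
  rintro x _
  obtain ⟨a, rfl⟩ := hf x
  refine all_of_comm h (fun a => f a ∈ AddSubgroup.closure
    {x : B | ∃ a b : B, x = a * b - b * a}) ?_ ?_ ?_ ?_ a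
  · rw [map_zero]; exact AddSubgroup.zero_mem _
  · intro x y hx hy
    rw [map_add]; exact AddSubgroup.add_mem _ hx hy
  · intro x hx
    rw [map_neg]; exact AddSubgroup.neg_mem _ hx
  · intro x y
    refine AddSubgroup.subset_closure ⟨f x, f y, ?_⟩
    rw [map_sub, map_mul, map_mul]

/-- modulo the two-sided ideal `N` the Hall identity holds. -/
def HallMod (R : Type u) [NonUnitalRing R] (N : TwoSidedIdeal R) : Prop :=
  ∀ x y z t w : R,
    ((x * y - y * x) * (z * t - t * z) + (z * t - t * z) * (x * y - y * x)) * w -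
      w * ((x * y - y * x) * (z * t - t * z) + (z * t - t * z) * (x * y - y * x)) ∈ N

/-- the projection to the quotient ring -/
def proj {R : Type u} [NonUnitalRing R] (N : TwoSidedIdeal R) : R →ₙ+* N.ringCon.Quotient where
  toFun a := (a : N.ringCon.Quotient)
  map_zero' := rfl
  map_add' _ _ := rfl
  map_mul' _ _ := rfl

lemma proj_zero {R : Type u} [NonUnitalRing R] (N : TwoSidedIdeal R) (a : R) :
    proj N a = 0 ↔ a ∈ N := by
  rw [TwoSidedIdeal.mem_iff]
  exact RingCon.eq (c := N.ringCon)

lemma proj_surj {R : Type u} [NonUnitalRing R] (N : TwoSidedIdeal R) :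
    Function.Surjective (proj N) := by
  intro x
  obtain ⟨a, ha⟩ := Quotient.exists_rep x
  exact ⟨a, ha⟩

lemma hall_quotient {R : Type u} [NonUnitalRing R] (N : TwoSidedIdeal R) (h : HallMod R N) :
    Hall N.ringCon.Quotient := by
  intro x y z t w
  obtain ⟨x, rfl⟩ := proj_surj N x
  obtain ⟨y, rfl⟩ := proj_surj N y
  obtain ⟨z, rfl⟩ := proj_surj N z
  obtain ⟨t, rfl⟩ := proj_surj N t
  obtain ⟨w, rfl⟩ := proj_surj N w
  have h1 := (proj_zero N _).2 (h x y z t w)
  rw [map_sub, sub_eq_zero] at h1
  simpa only [map_mul, map_add, map_sub] using h1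

theorem mem_of_hall {R : Type u} [NonUnitalRing R] (hR : Perfect R) (N : TwoSidedIdeal R)
    (hq : Hall N.ringCon.Quotient) (a : R) : a ∈ N :=
  (proj_zero N a).1 (zero_of_hall (perfect_image hR (proj N) (proj_surj N)) hq _)

lemma foldl_add {R : Type u} [NonUnitalRing R] (l : List R) : ∀ a b : R,
    l.foldl (· * ·) (a + b) = l.foldl (· * ·) a + l.foldl (· * ·) b := by
  induction l with
  | nil => intro a b; rfl
  | cons c l ih => intro a b; simp only [List.foldl_cons]; rw [add_mul]; exact ih _ _

lemma foldl_zero {R : Type u} [NonUnitalRing R] (l : List R) :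
    l.foldl (· * ·) (0 : R) = 0 := by
  induction l with
  | nil => rfl
  | cons c l ih => simp only [List.foldl_cons]; rw [zero_mul]; exact ih

lemma foldl_neg {R : Type u} [NonUnitalRing R] (l : List R) (a : R) :
    l.foldl (· * ·) (-a) = -l.foldl (· * ·) a := by
  rw [eq_neg_iff_add_eq_zero, ← foldl_add, neg_add_cancel, foldl_zero]

/-- a ring with `R = [R,R]` in which all products of `k + 1` elements vanish is zero -/
lemma zero_of_nilpotent {R : Type u} [NonUnitalRing R] (hR : Perfect R) (k : ℕ)
    (h : ∀ l : List R, l.length = k → ∀ a, l.foldl (· * ·) a = 0) (a : R) : a = 0 := by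
  induction k generalizing a with
  | zero => exact h [] rfl a
  | succ k ih =>
    refine ih ?_ a
    intro l hl a
    refine all_of_comm hR (fun a => l.foldl (· * ·) a = 0) ?_ ?_ ?_ ?_ a
    · exact foldl_zero l
    · intro x y hx hy
      rw [foldl_add, hx, hy, add_zero]
    · intro x hx
      rw [foldl_neg, hx, neg_zero]
    · intro x y
      rw [sub_eq_add_neg, foldl_add, foldl_neg]
      have h1 := h (y :: l) (by simp [hl]) x
      have h2 := h (x :: l) (by simp [hl]) y
      simp only [List.foldl_cons] at h1 h2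
      rw [h1, h2, neg_zero, add_zero]

end Functorial

/-- **Lvov's question for the variety of 2 × 2 matrices, in every characteristic.**
Let `R` be an associative ring, without unit in general, with `R = [R,R]`. Let `N` be a nilpotent
two-sided ideal of `R` (for instance `N = 0`) such that `R / N` satisfies the linearised Hall
identity, or is a homomorphic image of a subring of `M₂(C)` for some commutative ring `C`.
Then `R = 0`. -/
theorem result (R : Type u) [NonUnitalRing R]
    (hR : AddSubgroup.closure {x : R | ∃ a b : R, x = a * b - b * a} = ⊤)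
    (N : TwoSidedIdeal R) (k : ℕ)
    (hk : ∀ l : List R, (∀ x ∈ l, x ∈ N) → l.length = k → ∀ a ∈ N, l.foldl (· * ·) a = 0)
    (h : HallMod R N ∨ ∃ (C : Type v) (_ : CommRing C)
      (S : NonUnitalSubring (Matrix (Fin 2) (Fin 2) C)) (f : S →ₙ+* N.ringCon.Quotient),
      Function.Surjective f) :
    ∀ x : R, x = 0 := by
  have hq : Hall N.ringCon.Quotient := by
    rcases h with h | ⟨C, _, S, f, hf⟩
    · exact hall_quotient N h
    · exact hall_image (hall_sub (hall_matrix C) S) f hf
  have hmem := mem_of_hall hR N hq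
  exact zero_of_nilpotent hR k (fun l hl a => hk l (fun x _ => hmem x) hl a (hmem a))

end Y375.HI
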